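import Pool.Agent.VRing6.Lev.Chain
import Pool.Agent.VRing6.Nu.Main

/-!
# The main induction with rank conditions depending on the level (MP_2175e6_al, helper6)

The singular step is due to helper91.
-/

open MulOpposite Pool.Agent.VRing Cardinal

namespace Pool.Agent.VRing6.Lev

open Pool.Agent.VRing23 Pool.Agent.VRing6.Room Pool.Agent.VRing6.Nu

universe u

/-- Sets with room can be extended to treat any set of at most `κ` nonzero elements. -/
def ExtT (C : ∀ (T : Type u) [Ring T], Prop) (β κ₀ κ : Cardinal.{u}) : Prop :=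
  ∀ (T : Type u) [Ring T] [Nontrivial T], C T → Pr T → Lv β κ₀ T → ¬ RightPrimitive T →
    ∀ θ : Cardinal.{u}, β ≤ θ → θ ≤ κ → ∀ Y : Set T, Proper Y → #Y ≤ θ →
      LargePr (Order.succ θ) Y → ∀ G : Set T, (∀ g ∈ G, g ≠ 0) → #G ≤ κ →
        ∃ Y' : Set T, Y ⊆ Y' ∧ Proper Y' ∧ Treats Y' G ∧ #Y' ≤ κ

/-- More room. -/
theorem raise {C : ∀ (T : Type u) [Ring T], Prop} (hC : Good C)
    {β κ₀ : Cardinal.{u}} (hβ : ℵ₀ ≤ β) {κ : Cardinal.{u}} (hκκ : κ ≤ κ₀)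
    (IHa : ∀ κ' : Cardinal.{u}, β ≤ κ' → κ' < κ → AllT C β κ₀ κ')
    (IHb : ∀ κ' : Cardinal.{u}, β ≤ κ' → κ' < κ → ExtT C β κ₀ κ')
    {T : Type u} [Ring T] [Nontrivial T] (hT : C T) (hp : Pr T) (hR : Lv β κ₀ T)
    (hn : ¬ RightPrimitive T) {θ1 θ2 : Cardinal.{u}} (h1 : β ≤ θ1) (h12 : θ1 ≤ θ2)
    (h2 : θ2 < κ) {Y1 : Set T} (hY1 : Proper Y1) (hY1c : #Y1 ≤ θ1)
    (hL : LargePr (Order.succ θ1) Y1) :
    ∃ Y2 : Set T, Y1 ⊆ Y2 ∧ Proper Y2 ∧ #Y2 ≤ θ2 ∧ LargePr (Order.succ θ2) Y2 := by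
  obtain ⟨hJ, hwit⟩ := (hC.ok T hT).self hp hn
  have h20 : ℵ₀ ≤ θ2 := hβ.trans (h1.trans h12)
  rcases h12.eq_or_lt with rfl | hlt
  · exact ⟨Y1, subset_rfl, hY1, hY1c, hL⟩
  · obtain ⟨Y, hY, hYc, hYL⟩ := chain hC hβ hT hp hR hn (isRegular_succ h20)
      ((h1.trans h12).trans_lt (Order.lt_succ _)) ((Order.succ_le_of_lt h2).trans hκκ)
      (fun κ' h3 h4 => IHa κ' h3 ((Order.lt_succ_iff.mp h4).trans_lt h2))
    have hYc' : #Y ≤ θ2 := Order.lt_succ_iff.mp hYc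
    obtain ⟨Y', ha, hb, hc, hd⟩ := IHb θ2 (h1.trans h12) h2 T hT hp hR hn θ1 h1 h12 Y1 hY1
      hY1c hL (Wit hwit Y) (fun g hg => ne_zero_of_mem_wit hwit hY hg)
      ((mk_wit_le hwit Y).trans (max_le h20 hYc'))
    exact ⟨Y', ha, hb, hd, hYL.of_treats hwit (h20.trans_lt (Order.lt_succ _)) hc hb
      (hd.trans_lt (Order.lt_succ _))⟩

/-- The singular step. -/
theorem ext_singular {C : ∀ (T : Type u) [Ring T], Prop} (hC : Good C)
    {β κ₀ : Cardinal.{u}} (hβ : ℵ₀ ≤ β) {κ : Cardinal.{u}} (hκκ : κ ≤ κ₀)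
    (IHa : ∀ κ' : Cardinal.{u}, β ≤ κ' → κ' < κ → AllT C β κ₀ κ')
    (IHb : ∀ κ' : Cardinal.{u}, β ≤ κ' → κ' < κ → ExtT C β κ₀ κ')
    {T : Type u} [Ring T] [Nontrivial T] (hT : C T) (hp : Pr T) (hR : Lv β κ₀ T)
    (hn : ¬ RightPrimitive T) {ν θ : Cardinal.{u}} (hθβ : β ≤ θ) (hθν : ν ≤ θ) (hθκ : θ < κ)
    {Y1 : Set T}
    (hY1 : Proper Y1) (hY1c : #Y1 ≤ θ) (hL : LargePr (Order.succ θ) Y1) {G0 : Set T}
    (hG0 : ∀ g ∈ G0, g ≠ 0) (hG0c : #G0 ≤ κ)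
    (hS : ∃ S : ν.ord.ToType → Set T, (∀ i, #(S i) < κ) ∧ κ ≤ #(⋃ i, S i)) :
    ∃ Y' : Set T, Y1 ⊆ Y' ∧ Proper Y' ∧ Treats Y' G0 ∧ #Y' ≤ κ := by
  classical
  obtain ⟨hJ0, hwit⟩ := (hC.ok T hT).self hp hn
  have hθ0 : ℵ₀ ≤ θ := hβ.trans hθβ
  have hκ0 : ℵ₀ ≤ κ := hθ0.trans hθκ.le
  -- the least index cardinal
  obtain ⟨μ, ⟨S, hS1, hS2⟩, hmin⟩ := WellFounded.has_min (r := (· < ·)) (wellFounded_lt)
    {μ : Cardinal.{u} | ∃ S : μ.ord.ToType → Set T, (∀ i, #(S i) < κ) ∧ κ ≤ #(⋃ i, S i)}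
    ⟨ν, hS⟩
  have hμν : μ ≤ ν := not_lt.mp (hmin ν hS)
  have hJ : #μ.ord.ToType = μ := mk_ord_toType μ
  have hJθ : #μ.ord.ToType ≤ θ := by
    rw [hJ]
    exact hμν.trans hθν
  have hseg : ∀ i : μ.ord.ToType, #(⋃ k : Set.Iio i, S k) < κ := by
    intro i
    by_contra h
    have hlt : #(Set.Iio i) < μ := by simpa using mk_Iio_lt i
    obtain ⟨e⟩ : Nonempty ((#(Set.Iio i)).ord.ToType ≃ Set.Iio i) :=
      Cardinal.eq.mp (mk_ord_toType _)
    refine hmin (#(Set.Iio i)) ⟨fun j => S (e j), fun j => hS1 _, ?_⟩ hlt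
    rw [e.surjective.iUnion_comp (fun k : Set.Iio i => S k)]
    exact not_lt.mp h
  have hneJ : Nonempty μ.ord.ToType := by
    by_contra h
    rw [not_nonempty_iff] at h
    rw [Set.iUnion_of_empty, mk_eq_zero, nonpos_iff_eq_zero] at hS2
    rw [hS2] at hθκ
    exact not_lt_zero hθκ
  let W : μ.ord.ToType → Set T := fun i => ⋃ k : Set.Iio i, S k
  let κm : μ.ord.ToType → Cardinal.{u} := fun i => max θ #(W i)
  let κp : μ.ord.ToType → Cardinal.{u} := fun i => max (κm i) #(S i)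
  have hκm : ∀ i, κm i < κ := fun i => max_lt hθκ (hseg i)
  have hκp : ∀ i, κp i < κ := fun i => max_lt (hκm i) (hS1 i)
  have hθm : ∀ i, θ ≤ κm i := fun i => le_max_left _ _
  have hmp : ∀ i, κm i ≤ κp i := fun i => le_max_left _ _
  have hpm : ∀ j i, j < i → κp j ≤ κm i := by
    intro j i hji
    refine max_le (max_le (hθm i) ?_) ?_
    · refine le_trans (mk_le_mk_of_subset ?_) (le_max_right _ _)
      intro x hx
      obtain ⟨k, hk⟩ := Set.mem_iUnion.mp hx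
      exact Set.mem_iUnion.mpr ⟨⟨k.1, lt_trans k.2 hji⟩, hk⟩
    · refine le_trans (mk_le_mk_of_subset ?_) (le_max_right _ _)
      intro x hx
      exact Set.mem_iUnion.mpr ⟨⟨j, hji⟩, hx⟩
  have hm0 : ∀ i, ℵ₀ ≤ κm i := fun i => hθ0.trans (hθm i)
  have hp0 : ∀ i, ℵ₀ ≤ κp i := fun i => (hm0 i).trans (hmp i)
  -- sets with room
  have hYc : ∀ i, ∃ Y : Set T, Proper Y ∧ #Y ≤ κm i ∧ LargePr (Order.succ (κm i)) Y := by
    intro i
    obtain ⟨Y, h1, h2, h3⟩ := chain hC hβ hT hp hR hn (isRegular_succ (hm0 i))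
      ((hθβ.trans (hθm i)).trans_lt (Order.lt_succ _))
      ((Order.succ_le_of_lt (hκm i)).trans hκκ)
      (fun κ' h1 h2 => IHa κ' h1 ((Order.lt_succ_iff.mp h2).trans_lt (hκm i)))
    exact ⟨Y, h1, Order.lt_succ_iff.mp h2, h3⟩
  choose Yc hYc1 hYc2 hYc3 using hYc
  let E : μ.ord.ToType → Set T := fun i => Wit hwit (Yc i)
  have hEc : ∀ i, #(E i) ≤ κm i := fun i => (mk_wit_le hwit _).trans (max_le (hm0 i) (hYc2 i))
  have hE0 : ∀ i, ∀ x ∈ E i, x ≠ 0 := fun i x hx => ne_zero_of_mem_wit hwit (hYc1 i) hx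
  -- splitting
  have hρ : ∀ i, ∃ ρ : T → μ.ord.ToType, ((∃ j, j < i) → ∀ x, ρ x < i) ∧
      ∀ j, j < i → #{x | x ∈ E i ∧ ρ x = j} ≤ κp j := by
    intro i
    by_cases hi : ∃ j, j < i
    · obtain ⟨j0, hj0⟩ := hi
      have : Nonempty (Set.Iio i) := ⟨⟨j0, hj0⟩⟩
      obtain ⟨ρ, hρ⟩ := exists_split (fun k : Set.Iio i => S k) θ (E i) (hEc i)
      refine ⟨fun x => (ρ x).1, fun _ x => (ρ x).2, fun j hj => ?_⟩
      refine le_trans (mk_le_mk_of_subset ?_) ((hρ ⟨j, hj⟩).trans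
        (max_le ((hθm j).trans (hmp j)) (le_max_right _ _)))
      rintro x ⟨hx, hxj⟩
      exact ⟨hx, Subtype.ext hxj⟩
    · exact ⟨fun _ => i, fun h => absurd h hi, fun j hj => absurd ⟨j, hj⟩ hi⟩
  choose ρ hρ1 hρ2 using hρ
  obtain ⟨ρ0, hρ0⟩ := exists_split S θ G0 (hG0c.trans (hS2.trans (le_max_right _ _)))
  let H : μ.ord.ToType → Set T := fun j => {x | x ∈ G0 ∧ ρ0 x = j} ∪
    ⋃ i, (if j < i then {x | x ∈ E i ∧ ρ i x = j} else ∅)
  have hHc : ∀ j, #(H j) ≤ κp j := by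
    intro j
    refine (mk_union_le _ _).trans (add_le_of_le (hp0 j) ?_ ?_)
    · exact (hρ0 j).trans (max_le ((hθm j).trans (hmp j)) (le_max_right _ _))
    · refine mk_iUnion_le_of (hp0 j) (hJθ.trans ((hθm j).trans (hmp j))) _ fun i => ?_
      split_ifs with hji
      · exact hρ2 i j hji
      · rw [mk_eq_zero]
        exact zero_le
  have hH0 : ∀ j, ∀ x ∈ H j, x ≠ 0 := by
    rintro j x (⟨hx, -⟩ | hx)
    · exact hG0 x hx
    · obtain ⟨i, hi⟩ := Set.mem_iUnion.mp hx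
      split_ifs at hi with hji
      · exact hE0 i x hi.1
      · exact absurd hi (Set.notMem_empty x)
  -- the recursion
  let Ys : μ.ord.ToType → Set T := IsWellFounded.fix (· < ·) fun i ih =>
    if h : ∃ Y : Set T, {t | t ∈ Y1 ∨ ∃ j, ∃ h : j < i, t ∈ ih j h} ⊆ Y ∧ Proper Y ∧
      Treats Y (H i) ∧ #Y ≤ κp i then h.choose else ∅
  let V : μ.ord.ToType → Set T := fun i => {t | t ∈ Y1 ∨ ∃ j, ∃ _ : j < i, t ∈ Ys j}
  have hYs : ∀ i, Ys i = if h : ∃ Y : Set T, V i ⊆ Y ∧ Proper Y ∧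
      Treats Y (H i) ∧ #Y ≤ κp i then h.choose else ∅ := fun i =>
    IsWellFounded.fix_eq (· < ·) _ i
  have hYs' : ∀ i, (∃ Y : Set T, V i ⊆ Y ∧ Proper Y ∧ Treats Y (H i) ∧ #Y ≤ κp i) →
      V i ⊆ Ys i ∧ Proper (Ys i) ∧ Treats (Ys i) (H i) ∧ #(Ys i) ≤ κp i := by
    intro i hi
    rw [hYs i, dif_pos hi]
    exact hi.choose_spec
  clear_value Ys
  have hmain : ∀ i, V i ⊆ Ys i ∧ Proper (Ys i) ∧ Treats (Ys i) (H i) ∧ #(Ys i) ≤ κp i := by
    intro i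
    induction i using WellFoundedLT.induction with
    | ind i ih =>
      apply hYs'
      have hVp : Proper (V i) := by
        refine proper_of_finite fun s hs => ?_
        have hs' : ∀ t ∈ s, t ∈ Y1 ∨ ∃ j ∈ Set.Iio i, t ∈ Ys j := by
          intro t ht
          rcases hs ht with h | ⟨j, hj, h⟩
          · exact Or.inl h
          · exact Or.inr ⟨j, hj, h⟩
        rcases finite_sub (Set.Iio i) Y1 Ys (fun j hj x hx => (ih j hj).1 (Or.inl hx))
          (fun j _ k hk hjk x hx => (ih k hk).1 (Or.inr ⟨j, hjk, hx⟩)) s hs' with h | ⟨j, hj, h⟩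
        · exact Proper.mono h hY1
        · exact Proper.mono h (ih j hj).2.1
      have hVc : #(V i) ≤ κm i := by
        have hsub : V i ⊆ Y1 ∪ ⋃ j, (if j < i then Ys j else ∅) := by
          rintro x (hx | ⟨j, hj, hx⟩)
          · exact Or.inl hx
          · refine Or.inr (Set.mem_iUnion.mpr ⟨j, ?_⟩)
            rw [if_pos hj]
            exact hx
        refine (mk_le_mk_of_subset hsub).trans ((mk_union_le _ _).trans
          (add_le_of_le (hm0 i) (hY1c.trans (hθm i)) ?_))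
        refine mk_iUnion_le_of (hm0 i) (hJθ.trans (hθm i)) _ fun j => ?_
        split_ifs with hj
        · exact (ih j hj).2.2.2.trans (hpm j i hj)
        · rw [mk_eq_zero]
          exact zero_le
      have hVL : LargePr (Order.succ (κm i)) (V i) := by
        by_cases hi : ∃ j, j < i
        · refine (hYc3 i).of_treats hwit ((hm0 i).trans_lt (Order.lt_succ _)) ?_ hVp
            (hVc.trans_lt (Order.lt_succ _))
          intro x hx
          have hji : ρ i x < i := hρ1 i hi x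
          have hxH : x ∈ H (ρ i x) := by
            refine Or.inr (Set.mem_iUnion.mpr ⟨i, ?_⟩)
            rw [if_pos hji]
            exact ⟨hx, rfl⟩
          obtain ⟨f, hf, hf1⟩ := (ih _ hji).2.2.1 x hxH
          exact ⟨f, Or.inr ⟨_, hji, hf⟩, hf1⟩
        · have hW : W i = ∅ := by
            refine Set.eq_empty_of_forall_notMem fun x hx => ?_
            obtain ⟨k, -⟩ := Set.mem_iUnion.mp hx
            exact hi ⟨k.1, k.2⟩
          have h1 : κm i = θ := by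
            change max θ #(W i) = θ
            rw [hW, mk_eq_zero]
            exact max_eq_left zero_le
          have h2 : V i = Y1 := by
            refine Set.Subset.antisymm ?_ fun x hx => Or.inl hx
            rintro x (hx | ⟨j, hj, -⟩)
            · exact hx
            · exact absurd ⟨j, hj⟩ hi
          rw [h1, h2]
          exact hL
      exact IHb (κp i) ((hθβ.trans (hθm i)).trans (hmp i)) (hκp i) T hT hp hR hn (κm i)
        (hθβ.trans (hθm i)) (hmp i) (V i) hVp hVc hVL (H i) (hH0 i) (hHc i)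
  refine ⟨{t | t ∈ Y1 ∨ ∃ j, t ∈ Ys j}, fun x hx => Or.inl hx, ?_, ?_, ?_⟩
  · refine proper_of_finite fun s hs => ?_
    have hs' : ∀ t ∈ s, t ∈ Y1 ∨ ∃ j ∈ Set.univ, t ∈ Ys j := by
      intro t ht
      rcases hs ht with h | ⟨j, h⟩
      · exact Or.inl h
      · exact Or.inr ⟨j, trivial, h⟩
    rcases finite_sub Set.univ Y1 Ys (fun j _ x hx => (hmain j).1 (Or.inl hx))
      (fun j _ k _ hjk x hx => (hmain k).1 (Or.inr ⟨j, hjk, hx⟩)) s hs' with h | ⟨j, -, h⟩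
    · exact Proper.mono h hY1
    · exact Proper.mono h (hmain j).2.1
  · intro x hx
    obtain ⟨f, hf, hf1⟩ := (hmain (ρ0 x)).2.2.1 x (Or.inl ⟨hx, rfl⟩)
    exact ⟨f, Or.inr ⟨_, hf⟩, hf1⟩
  · have hsub : {t | t ∈ Y1 ∨ ∃ j, t ∈ Ys j} ⊆ Y1 ∪ ⋃ j, Ys j := by
      rintro x (hx | ⟨j, hx⟩)
      · exact Or.inl hx
      · exact Or.inr (Set.mem_iUnion.mpr ⟨j, hx⟩)
    refine (mk_le_mk_of_subset hsub).trans ((mk_union_le _ _).trans
      (add_le_of_le hκ0 (hY1c.trans hθκ.le) ?_))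
    exact mk_iUnion_le_of hκ0 (hJθ.trans hθκ.le) _ fun j => (hmain j).2.2.2.trans (hκp j).le

/-- A set of singular cardinality is a union of few smaller sets. -/
lemma exists_union {T : Type u} {κ : Cardinal.{u}} (hκ : ℵ₀ ≤ κ) (G : Set T) (hG : κ ≤ #G) :
    ∃ S : κ.ord.cof.ord.ToType → Set T, (∀ i, #(S i) < κ) ∧ κ ≤ #(⋃ i, S i) := by
  obtain ⟨s, hs, hsc⟩ := Order.exists_cof_eq κ.ord.ToType
  rw [Ordinal.cof_toType] at hsc
  obtain ⟨e⟩ : Nonempty (κ.ord.cof.ord.ToType ≃ s) := by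
    rw [← Cardinal.eq, mk_ord_toType, hsc]
  obtain ⟨emb⟩ : Nonempty (κ.ord.ToType ↪ G) := by
    rw [← Cardinal.le_def, mk_ord_toType]
    exact hG
  have hnm : NoMaxOrder κ.ord.ToType := noMaxOrder hκ
  refine ⟨fun i => (fun x => ((emb x : G) : T)) '' Set.Iic (e i : κ.ord.ToType), fun i => ?_, ?_⟩
  · refine mk_image_le.trans_lt ?_
    obtain ⟨y, hy⟩ := exists_gt (e i : κ.ord.ToType)
    have h1 : #(Set.Iio y) < κ := by simpa using mk_Iio_lt y
    exact (mk_le_mk_of_subset fun x hx => lt_of_le_of_lt hx hy).trans_lt h1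
  · have h1 : (Set.range fun x => ((emb x : G) : T)) ⊆
        ⋃ i, (fun x => ((emb x : G) : T)) '' Set.Iic (e i : κ.ord.ToType) := by
      rintro _ ⟨x, rfl⟩
      obtain ⟨y, hy, hxy⟩ := hs x
      refine Set.mem_iUnion.mpr ⟨e.symm ⟨y, hy⟩, x, ?_, rfl⟩
      rw [e.apply_symm_apply]
      exact hxy
    refine le_trans ?_ (mk_le_mk_of_subset h1)
    rw [mk_range_eq _ (fun x y h => emb.injective (Subtype.ext h)), mk_ord_toType]

theorem main_induction {C : ∀ (T : Type u) [Ring T], Prop} (hC : Good C)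
    {β κ₀ : Cardinal.{u}} (hβ : ℵ₀ ≤ β) (hbase : AllT C β κ₀ β) (κ : Cardinal.{u}) :
    β ≤ κ → κ ≤ κ₀ → AllT C β κ₀ κ ∧ ExtT C β κ₀ κ := by
  induction κ using WellFoundedLT.induction with
  | ind κ IH =>
  intro hβκ hκκ
  have IHa : ∀ κ' : Cardinal.{u}, β ≤ κ' → κ' < κ → AllT C β κ₀ κ' := fun κ' h1 h2 =>
    (IH κ' h2 h1 (h2.le.trans hκκ)).1
  have IHb : ∀ κ' : Cardinal.{u}, β ≤ κ' → κ' < κ → ExtT C β κ₀ κ' := fun κ' h1 h2 =>
    (IH κ' h2 h1 (h2.le.trans hκκ)).2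
  have hκ0 : ℵ₀ ≤ κ := hβ.trans hβκ
  have hext : ExtT C β κ₀ κ := by
    intro T _ _ hT hp hR hn θ1 h1 hle Y1 hY1 hY1c hL G0 hG0 hG0c
    obtain ⟨hJ, hwit⟩ := (hC.ok T hT).self hp hn
    have h10 : ℵ₀ ≤ θ1 := hβ.trans h1
    rcases hle.eq_or_lt with rfl | hlt
    · obtain ⟨Y', ha, hb, hc, hd⟩ := recursion hwit (h10.trans_lt (Order.lt_succ θ1)) hY1
        (hY1c.trans_lt (Order.lt_succ _)) hL G0 (hG0c.trans (Order.le_succ _)) hG0
      exact ⟨Y', ha, hb, hc, hd.trans (add_le_of_le h10 hY1c hG0c)⟩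
    · have hκ' : β < κ := h1.trans_lt hlt
      rcases hG0c.lt_or_eq with hG0lt | hG0eq
      · have hlt' : max θ1 #G0 < κ := max_lt hlt hG0lt
        obtain ⟨Y', ha, hb, hc, hd⟩ := IHb (max θ1 #G0) (h1.trans (le_max_left _ _)) hlt' T hT hp
          hR hn θ1 h1 (le_max_left _ _) Y1 hY1 hY1c hL G0 hG0 (le_max_right _ _)
        exact ⟨Y', ha, hb, hc, hd.trans hlt'.le⟩
      by_cases hreg : κ.IsRegular
      · obtain ⟨Y, hY, hYc, hYL⟩ := chain hC hβ hT hp hR hn hreg hκ' hκκ IHa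
        have hlt' : max θ1 #Y < κ := max_lt hlt hYc
        obtain ⟨Y', ha, hb, hc, hd⟩ := IHb (max θ1 #Y) (h1.trans (le_max_left _ _))
          hlt' T hT hp hR hn θ1 h1 (le_max_left _ _) Y1 hY1 hY1c hL (Wit hwit Y)
          (fun g hg => ne_zero_of_mem_wit hwit hY hg) ((mk_wit_le hwit Y).trans
            (max_le (h10.trans (le_max_left _ _)) (le_max_right _ _)))
        have hd' : #Y' < κ := hd.trans_lt hlt'
        have hL' : LargePr κ Y' := hYL.of_treats hwit (hβ.trans_lt hκ') hc hb hd'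
        obtain ⟨Y2, ha2, hb2, hc2, hd2⟩ := recursion hwit (hβ.trans_lt hκ') hb hd' hL' G0
          hG0c hG0
        exact ⟨Y2, ha.trans ha2, hb2, hc2, hd2.trans (add_le_of_le hκ0 hd'.le hG0c)⟩
      · have hcof : κ.ord.cof < κ := by
          rcases (Ordinal.cof_ord_le κ).lt_or_eq with h | h
          · exact h
          · exact absurd ⟨hκ0, h.ge⟩ hreg
        have hlt' : max θ1 κ.ord.cof < κ := max_lt hlt hcof
        obtain ⟨Y2, ha, hb, hc, hd⟩ := raise hC hβ hκκ IHa IHb hT hp hR hn h1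
          (le_max_left θ1 κ.ord.cof) hlt' hY1 hY1c hL
        obtain ⟨Y', ha', hb', hc', hd'⟩ := ext_singular hC hβ hκκ IHa IHb hT hp hR hn
          (h1.trans (le_max_left _ _)) (le_max_right θ1 κ.ord.cof) hlt' hb hc hd hG0 hG0c
          (exists_union hκ0 G0 hG0eq.ge)
        exact ⟨Y', ha.trans ha', hb', hc', hd'⟩
  refine ⟨?_, hext⟩
  rcases hβκ.eq_or_lt with rfl | hκ'
  · exact hbase
  · intro T _ _ hT hp hR hn G hG hGc
    obtain ⟨Y, hY, hYc, hYL⟩ := chain hC hβ hT hp hR hn (isRegular_succ hβ)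
      (Order.lt_succ _) ((Order.succ_le_of_lt hκ').trans hκκ)
      (fun κ' h1 h2 => IHa κ' h1 ((Order.lt_succ_iff.mp h2).trans_lt hκ'))
    obtain ⟨Y', -, hb, hc, hd⟩ := hext T hT hp hR hn β le_rfl hβκ Y hY
      (Order.lt_succ_iff.mp hYc) hYL G hG hGc
    exact ⟨Y', hb, hc, hd⟩

/-- The main theorem with base `β`. -/
theorem primitive_of_lv {C : ∀ (T : Type u) [Ring T], Prop} (hC : Good C)
    {β : Cardinal.{u}} (hβ : ℵ₀ ≤ β)
    (hbase : ∀ (T : Type u) [Ring T] [Nontrivial T], C T → Pr T → ¬ RightPrimitive T →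
      TreatAll T β)
    (T : Type u) [Ring T] [Nontrivial T] (hT : C T) (hp : Pr T) (X : Set T) (hX : Coin X)
    (hR : Lv β #X T) : RightPrimitive T := by
  by_contra hn
  have hall : TreatAll T (max β #X) := by
    rcases le_total #X β with h | h
    · rw [max_eq_left h]
      exact hbase T hT hp hn
    · rw [max_eq_right h]
      exact (main_induction hC hβ (fun T _ _ hT hp _ hn => hbase T hT hp hn) #X h le_rfl).1 T
        hT hp hR hn
  obtain ⟨Y, hY, hYG, -⟩ := hall {x | x ∈ X ∧ x ≠ 0} (fun g hg => hg.2)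
    ((mk_le_mk_of_subset fun x hx => hx.1).trans (le_max_right _ _))
  refine hn (rightPrimitive_of_treats hY hYG fun I hI => ?_)
  obtain ⟨x, hx, hx0, hxI⟩ := hX I hI
  exact ⟨x, ⟨hx, hx0⟩, hxI⟩

/-- Countable sets can be treated. -/
theorem treatAll_aleph0 {C : ∀ (T : Type u) [Ring T], Prop} (hC : Good C) (T : Type u) [Ring T]
    [Nontrivial T] (hT : C T) (hp : Pr T) (hn : ¬ RightPrimitive T) : TreatAll T ℵ₀ := by
  refine Nu.allTreat_aleph0 hC ℵ₀ 0 PUnit T hT hp ?_ hn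
  refine ⟨fun _ => PUnit.unit, fun P _ hP => ?_⟩
  obtain ⟨U, _, f, -, -, -, ⟨X', hX', -⟩, -⟩ := hP
  exact absurd hX' not_lt_zero

end Pool.Agent.VRing6.Lev
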